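import Pool.Agent.Y783.BX.Main
import Pool.Agent.Results.MP_ff2f0d_gt.NotProvable

/-!
# The countable-support part of `□^{ω₁}(ω + 1)` is ultraparacompact under CH

`X` (starting file `NormalUnderCH`) is the space of all `f : ω₁ → ω + 1` with countable support
in the box topology. Under CH every open cover of `X` is refined by a partition of `X` into clopen
sets. In ZFC the same holds for every part of `X` of cardinality at most `ℵ₁` which contains the
point with empty support and is closed under finite modifications.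
-/

set_option autoImplicit false

namespace Pool.Agent.Results.MP_ff2f0d_gt.Ultraparacompactness

open Cardinal
open Pool.Agent.Results.MP_ff2f0d_gt.NormalUnderCH
open Pool.Agent.Helper257.ForceCH (OmegaOnePreserved CHHolds)

/-- Every open cover is refined by a partition into clopen sets. -/
def Ultraparacompact (Y : Type*) [TopologicalSpace Y] : Prop :=
  ∀ 𝒰 : Set (Set Y), (∀ U ∈ 𝒰, IsOpen U) → ⋃₀ 𝒰 = Set.univ →
    ∃ 𝒱 : Set (Set Y), (∀ S ∈ 𝒱, IsClopen S) ∧ ⋃₀ 𝒱 = Set.univ ∧ 𝒱.PairwiseDisjoint id ∧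
      ∀ S ∈ 𝒱, ∃ U ∈ 𝒰, S ⊆ U

/-- Disjoint closed sets are separated by a clopen set. -/
def ClopenNormal (Y : Type*) [TopologicalSpace Y] : Prop :=
  ∀ H K : Set Y, IsClosed H → IsClosed K → Disjoint H K →
    ∃ C : Set Y, IsClopen C ∧ H ⊆ C ∧ Disjoint C K

theorem ultra_of_upara {Y : Type*} [TopologicalSpace Y] (h : Pool.Agent.Y783.BX.UPara Y) :
    Ultraparacompact Y := by
  intro 𝒰 hU hc
  obtain ⟨𝒱, hV1, hV2, hV3, hV4⟩ := h 𝒰 hU (fun x => by
    have hx : x ∈ ⋃₀ 𝒰 := by
      rw [hc]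
      exact Set.mem_univ x
    exact hx)
  refine ⟨𝒱, fun S hS => ⟨?_, hV1 S hS⟩, Set.eq_univ_of_forall hV2, ?_, hV4⟩
  · have : S = (⋃₀ {S' | S' ∈ 𝒱 ∧ S' ≠ S})ᶜ := by
      ext x
      constructor
      · rintro hx ⟨S', ⟨h1, h2⟩, hx'⟩
        exact h2 (hV3 S' h1 S hS x hx' hx)
      · intro hx
        obtain ⟨S', hS', hxS'⟩ := hV2 x
        by_cases hne : S' = S
        · rw [← hne]
          exact hxS'
        · exact (hx ⟨S', ⟨hS', hne⟩, hxS'⟩).elim
    rw [this]
    exact (isOpen_sUnion fun S' hS' => hV1 S' hS'.1).isClosed_compl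
  · intro S hS S' hS' hne
    rw [Function.onFun, Set.disjoint_left]
    intro x hx hx'
    exact hne (hV3 S hS S' hS' x hx hx')

theorem t2 (A : Set (OmegaOne → ℕ∞)) : @T2Space A (subBoxTopology A) := by
  refine @T2Space.mk A (subBoxTopology A) ?_
  intro f g hfg
  obtain ⟨a, ha⟩ : ∃ a, f.1 a ≠ g.1 a := by
    by_contra hcon
    push Not at hcon
    exact hfg (Subtype.ext (funext hcon))
  obtain ⟨u, v, hu, hv, hfu, hgv, huv⟩ := t2_separation ha
  refine ⟨Subtype.val ⁻¹' {h : OmegaOne → ℕ∞ | h a ∈ u}, Subtype.val ⁻¹' {h | h a ∈ v},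
    ⟨_, isOpen_eval a u hu, rfl⟩, ⟨_, isOpen_eval a v hv, rfl⟩, hfu, hgv, ?_⟩
  rw [Set.disjoint_left]
  intro h h1 h2
  exact Set.disjoint_left.1 huv h1 h2

/-- **Main theorem.**

1. (ZFC) Every `A ⊆ X` with at most `ℵ₁` elements which contains the point with empty support and
   is closed under finite modifications is ultraparacompact, Hausdorff, paracompact and normal.
2. (CH) `X` itself is ultraparacompact and Hausdorff, so it is paracompact, normal, and disjoint
   closed sets are separated by clopen sets.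
3. Some forcing notion forces CH and preserves `ω₁`; so ZFC does not refute that `X` is
   ultraparacompact. -/
theorem result :
    (∀ A : Set (OmegaOne → ℕ∞), A ⊆ X → #A ≤ ℵ₁ → (fun _ => ⊤ : OmegaOne → ℕ∞) ∈ A →
      (∀ f ∈ A, ∀ g : OmegaOne → ℕ∞, {α | g α ≠ f α}.Finite → g ∈ A) →
      @Ultraparacompact A (subBoxTopology A) ∧ @T2Space A (subBoxTopology A) ∧
        @ParacompactSpace A (subBoxTopology A) ∧ @NormalSpace A (subBoxTopology A)) ∧
    ((2 : Cardinal.{0}) ^ (ℵ₀ : Cardinal.{0}) = ℵ₁ →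
      @Ultraparacompact X topologyX ∧ @T2Space X topologyX ∧ @ParacompactSpace X topologyX ∧
        @NormalSpace X topologyX ∧ @ClopenNormal X topologyX) ∧
    (∃ (P : Type) (_ : Preorder P), Nonempty P ∧
      ∀ p : P, p ∈ OmegaOnePreserved P ∧ p ∈ CHHolds P) := by
  refine ⟨?_, ?_, Pool.Agent.Results.MP_ff2f0d_gt.NotProvable.result.1⟩
  · intro A hAX hcard htop hA
    have h := Pool.Agent.Y783.BX.upara_small A hAX hcard htop hA
    exact ⟨@ultra_of_upara A (subBoxTopology A) h, t2 A,
      @Pool.Agent.Y783.BX.UPara.paracompact A (subBoxTopology A) h,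
      @Pool.Agent.Y783.BX.UPara.normal A (subBoxTopology A) h⟩
  · intro CH
    have h := Pool.Agent.Y783.BX.upara_CH CH
    exact ⟨@ultra_of_upara X topologyX h, t2 X,
      @Pool.Agent.Y783.BX.UPara.paracompact X topologyX h,
      @Pool.Agent.Y783.BX.UPara.normal X topologyX h,
      fun H K hH hK hHK => @Pool.Agent.Y783.BX.UPara.separate X topologyX h H K hH hK hHK⟩

end Pool.Agent.Results.MP_ff2f0d_gt.Ultraparacompactness
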